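import Mathlib

/-!
# Selection principles: tau-covers and tau-groupable covers
-/

set_option autoImplicit false

namespace Pool.Agent.TauGp

universe u

variable {X : Type u} [TopologicalSpace X]

/-- An open cover of the space `X`: a family of open sets with union `X` which does not have `X` as
an element. -/
def IsOpenCover (𝒰 : Set (Set X)) : Prop :=
  (∀ U ∈ 𝒰, IsOpen U) ∧ ⋃₀ 𝒰 = Set.univ ∧ Set.univ ∉ 𝒰

/-- An open omega-cover: an open cover such that each finite subset of `X` is contained in some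
member. -/
def IsOmegaCover (𝒰 : Set (Set X)) : Prop :=
  IsOpenCover 𝒰 ∧ ∀ F : Set X, F.Finite → ∃ U ∈ 𝒰, F ⊆ U

/-- The family `𝒰` contains a finite subfamily with union `X`. -/
def HasFiniteSubcover (𝒰 : Set (Set X)) : Prop :=
  ∃ 𝓕 : Set (Set X), 𝓕.Finite ∧ 𝓕 ⊆ 𝒰 ∧ ⋃₀ 𝓕 = Set.univ

/-- An indexed open tau-cover of `X`: open sets different from `X`, each point is in infinitely
many of them, and for any two points one of the two difference sets of indices is finite. -/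
def IsTauSeq (V : ℕ → Set X) : Prop :=
  (∀ n, IsOpen (V n)) ∧ (∀ n, V n ≠ Set.univ) ∧ (∀ x, {n | x ∈ V n}.Infinite) ∧
    ∀ x y, {n | x ∈ V n ∧ y ∉ V n}.Finite ∨ {n | y ∈ V n ∧ x ∉ V n}.Finite

/-- The family `𝒰` splits into infinitely many pairwise disjoint finite subfamilies, each a cover
of `X`. -/
def IsMultifinite (𝒰 : Set (Set X)) : Prop :=
  ∃ P : Set (Set (Set X)), P.Infinite ∧ P.PairwiseDisjoint id ∧ ⋃₀ P = 𝒰 ∧
    ∀ 𝓕 ∈ P, 𝓕.Finite ∧ ⋃₀ 𝓕 = Set.univ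

/-- A tau-groupable open cover: an open cover which is multifinite, or which can be partitioned
into finite sets `G 0, G 1, ...` such that the sequence of the unions of the `G n` is a
tau-cover. -/
def IsTauGroupable (𝒰 : Set (Set X)) : Prop :=
  IsOpenCover 𝒰 ∧ (IsMultifinite 𝒰 ∨ ∃ G : ℕ → Set (Set X), (∀ n, (G n).Finite) ∧
    (∀ n, (G n).Nonempty) ∧ (∀ m n, m ≠ n → Disjoint (G m) (G n)) ∧ (⋃ n, G n) = 𝒰 ∧
    IsTauSeq fun n => ⋃₀ G n)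

variable (X)

/-- The property `S_fin(Ω, O^{τ-gp})` of the space `X`. -/
def SfinOmegaTauGp : Prop :=
  ∀ 𝒰 : ℕ → Set (Set X), (∀ n, IsOmegaCover (𝒰 n)) →
    ∃ 𝓕 : ℕ → Set (Set X), (∀ n, (𝓕 n).Finite ∧ 𝓕 n ⊆ 𝒰 n) ∧ IsTauGroupable (⋃ n, 𝓕 n)

/-- The property `U_fin(O, T)` of the space `X`. -/
def UfinTau : Prop :=
  ∀ 𝒰 : ℕ → Set (Set X), (∀ n, IsOpenCover (𝒰 n) ∧ ¬ HasFiniteSubcover (𝒰 n)) →
    ∃ 𝓕 : ℕ → Set (Set X), (∀ n, (𝓕 n).Finite ∧ 𝓕 n ⊆ 𝒰 n) ∧ IsTauSeq fun n => ⋃₀ 𝓕 n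

/-- The property `U_fin(O, T)` restricted to decreasing sequences `𝒰 0 ⊇ 𝒰 1 ⊇ ...` of covers. -/
def UfinTauDecreasing : Prop :=
  ∀ 𝒰 : ℕ → Set (Set X), (∀ n, IsOpenCover (𝒰 n) ∧ ¬ HasFiniteSubcover (𝒰 n)) →
    (∀ n, 𝒰 (n + 1) ⊆ 𝒰 n) →
    ∃ 𝓕 : ℕ → Set (Set X), (∀ n, (𝓕 n).Finite ∧ 𝓕 n ⊆ 𝒰 n) ∧ IsTauSeq fun n => ⋃₀ 𝓕 n

end Pool.Agent.TauGp
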