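import Mathlib
import Pool.Agent.TauGp.Defs

/-!
# `S_fin(Ω, O^{τ-gp})` is `U_fin(O, T)` for decreasing sequences of covers
-/

set_option autoImplicit false

namespace Pool.Agent.TauGp

open Set

universe u

/-! ## Blocks of natural numbers -/

/-- indices of the blocks `[κ n, κ (n+1))` meeting `A` -/
def blk (κ : ℕ → ℕ) (A : Set ℕ) : Set ℕ := {n | ∃ k, κ n ≤ k ∧ k < κ (n + 1) ∧ k ∈ A}

lemma exists_block {κ : ℕ → ℕ} (hκ : StrictMono κ) {k : ℕ} (hk : κ 0 ≤ k) :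
    ∃ n, κ n ≤ k ∧ k < κ (n + 1) := by
  have h1 : ∃ n, k < κ n := ⟨k + 1, lt_of_lt_of_le (Nat.lt_succ_self k) (hκ.id_le (k + 1))⟩
  classical
  have h2 := Nat.find_spec h1
  have h3 : Nat.find h1 ≠ 0 := by
    intro h
    rw [h] at h2
    omega
  obtain ⟨n, hn⟩ := Nat.exists_eq_succ_of_ne_zero h3
  refine ⟨n, ?_, by rw [hn] at h2; exact h2⟩
  by_contra h4
  have h5 := Nat.find_min' h1 (not_le.1 h4)
  omega

lemma blk_infinite {κ : ℕ → ℕ} (hκ : StrictMono κ) {A : Set ℕ} (hA : A.Infinite) :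
    (blk κ A).Infinite := by
  refine Set.infinite_of_forall_exists_gt fun N => ?_
  obtain ⟨k, hk, hk'⟩ := hA.exists_gt (κ (N + 1))
  obtain ⟨n, hn, hn'⟩ := exists_block hκ (k := k) ((hκ.monotone (Nat.zero_le _)).trans hk'.le)
  refine ⟨n, ⟨k, hn, hn', hk⟩, ?_⟩
  by_contra h
  have h1 : κ (n + 1) ≤ κ (N + 1) := hκ.monotone (by omega)
  omega

lemma blk_diff_finite {κ : ℕ → ℕ} (hκ : StrictMono κ) {A A' : Set ℕ} (h : (A \ A').Finite) :
    (blk κ A \ blk κ A').Finite := by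
  obtain ⟨M, hM⟩ := h.bddAbove
  refine (Set.finite_le_nat M).subset ?_
  rintro n ⟨⟨k, h1, h2, h3⟩, h4⟩
  have h5 : k ∉ A' := fun h' => h4 ⟨k, h1, h2, h'⟩
  have h6 : k ≤ M := hM ⟨h3, h5⟩
  exact (hκ.id_le n).trans (h1.trans h6)

/-- For a family of infinite sets of natural numbers which is linear modulo finite sets, one
parity class meets all members in an infinite set. -/
lemma parity {ι : Type u} (B : ι → Set ℕ) (hinf : ∀ x, (B x).Infinite)
    (hlin : ∀ x y, (B x \ B y).Finite ∨ (B y \ B x).Finite) :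
    ∃ e : ℕ, ∀ x, {j | 2 * j + e ∈ B x}.Infinite := by
  have hor : ∀ x, {j | 2 * j + 0 ∈ B x}.Infinite ∨ {j | 2 * j + 1 ∈ B x}.Infinite := by
    intro x
    by_contra hcon
    push Not at hcon
    have h1 : B x ⊆ (fun j => 2 * j + 0) '' {j | 2 * j + 0 ∈ B x} ∪
        (fun j => 2 * j + 1) '' {j | 2 * j + 1 ∈ B x} := by
      intro n hn
      rcases Nat.even_or_odd' n with ⟨j, hj | hj⟩
      · exact Or.inl ⟨j, by rw [hj] at hn; exact hn, hj.symm⟩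
      · exact Or.inr ⟨j, by rw [hj] at hn; exact hn, hj.symm⟩
    exact hinf x (((hcon.1).image _).union ((hcon.2).image _) |>.subset h1)
  have hpre : ∀ (e : ℕ) (x y : ι), (B x \ B y).Finite →
      ({j | 2 * j + e ∈ B x} \ {j | 2 * j + e ∈ B y}).Finite := by
    intro e x y h
    have h1 : ((fun j => 2 * j + e) ⁻¹' (B x \ B y)).Finite :=
      h.preimage (fun a _ b _ hab => by
        have hab' : 2 * a + e = 2 * b + e := hab
        omega)
    exact h1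
  by_cases h0 : ∀ x, {j | 2 * j + 0 ∈ B x}.Infinite
  · exact ⟨0, h0⟩
  · push Not at h0
    obtain ⟨x₀, hx₀⟩ := h0
    refine ⟨1, fun x => ?_⟩
    have hx₀' := (hor x₀).resolve_left fun h => h hx₀
    rcases hlin x₀ x with h | h
    · intro hfin
      exact hx₀' ((hfin.union (hpre 1 x₀ x h)).subset fun j hj => by
        by_cases h1 : 2 * j + 1 ∈ B x
        · exact Or.inl h1
        · exact Or.inr ⟨hj, h1⟩)
    · refine (hor x).resolve_left fun hinf' => hinf' ?_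
      exact (hx₀.union (hpre 0 x x₀ h)).subset fun j hj => by
        by_cases h1 : 2 * j + 0 ∈ B x₀
        · exact Or.inl h1
        · exact Or.inr ⟨hj, h1⟩

/-! ## From groupable selections to decreasing sequences -/

section forward

variable {X : Type u} [TopologicalSpace X]

/-- finite unions of members of `𝒰` -/
def finUnions (𝒰 : Set (Set X)) : Set (Set X) := {W | ∃ E ⊆ 𝒰, E.Finite ∧ W = ⋃₀ E}

omit [TopologicalSpace X] in
lemma exists_finite_of_finUnions {𝒰 𝓔 : Set (Set X)} (h𝓔 : 𝓔.Finite) (h : 𝓔 ⊆ finUnions 𝒰) :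
    ∃ E ⊆ 𝒰, E.Finite ∧ ⋃₀ E = ⋃₀ 𝓔 := by
  have hch : ∀ W, W ∈ 𝓔 → ∃ E ⊆ 𝒰, E.Finite ∧ W = ⋃₀ E := fun W hW => h hW
  choose! e he1 he2 he3 using hch
  refine ⟨⋃ W ∈ 𝓔, e W, iUnion₂_subset fun W hW => he1 W hW, h𝓔.biUnion fun W hW => he2 W hW, ?_⟩
  ext x
  simp only [mem_sUnion, mem_iUnion]
  constructor
  · rintro ⟨t, ⟨W, hW, ht⟩, hx⟩
    exact ⟨W, hW, by rw [he3 W hW]; exact ⟨t, ht, hx⟩⟩
  · rintro ⟨W, hW, hx⟩
    rw [he3 W hW] at hx
    obtain ⟨t, ht, hxt⟩ := hx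
    exact ⟨t, ⟨W, hW, ht⟩, hxt⟩

lemma isOmegaCover_finUnions {𝒰 : Set (Set X)} (h : IsOpenCover 𝒰)
    (hno : ¬ HasFiniteSubcover 𝒰) : IsOmegaCover (finUnions 𝒰) := by
  obtain ⟨h1, h2, h3⟩ := h
  have hpt : ∀ x : X, ∃ U ∈ 𝒰, x ∈ U := by
    intro x
    have : x ∈ ⋃₀ 𝒰 := by rw [h2]; trivial
    exact this
  choose u hu1 hu2 using hpt
  have hω : ∀ F : Set X, F.Finite → ∃ U ∈ finUnions 𝒰, F ⊆ U := by
    intro F hF
    refine ⟨⋃₀ (u '' F), ⟨u '' F, ?_, hF.image u, rfl⟩, fun x hx => ⟨u x, ⟨x, hx, rfl⟩, hu2 x⟩⟩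
    rintro _ ⟨x, -, rfl⟩
    exact hu1 x
  refine ⟨⟨?_, ?_, ?_⟩, hω⟩
  · rintro _ ⟨E, hE, -, rfl⟩
    exact isOpen_sUnion fun U hU => h1 U (hE hU)
  · refine eq_univ_of_forall fun x => ?_
    obtain ⟨U, hU, hxU⟩ := hω {x} (finite_singleton x)
    exact ⟨U, hU, hxU rfl⟩
  · rintro ⟨E, hE, hEf, hE'⟩
    exact hno ⟨E, hEf, hE, hE'.symm⟩

theorem ufinTauDecreasing_of_sfin (h : SfinOmegaTauGp X) : UfinTauDecreasing X := by
  intro 𝒰 h𝒰 hdec
  have hanti : ∀ {m n : ℕ}, m ≤ n → 𝒰 n ⊆ 𝒰 m := fun {m n} hmn => antitone_nat_of_succ_le hdec hmn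
  have hanti' : ∀ {m n : ℕ}, m ≤ n → finUnions (𝒰 n) ⊆ finUnions (𝒰 m) := by
    rintro m n hmn W ⟨E, hE, hE', rfl⟩
    exact ⟨E, hE.trans (hanti hmn), hE', rfl⟩
  obtain ⟨𝓕, h𝓕, -, hgp⟩ := h (fun n => finUnions (𝒰 n)) fun n =>
    isOmegaCover_finUnions (h𝒰 n).1 (h𝒰 n).2
  rcases hgp with ⟨P, hPinf, -, hPU, hP⟩ | ⟨G, hGf, -, hGd, hGU, hGτ⟩
  · -- multifinite: contradiction
    exfalso
    obtain ⟨𝓔, h𝓔⟩ := hPinf.nonempty
    have h1 : 𝓔 ⊆ finUnions (𝒰 0) := by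
      intro W hW
      have h2 : W ∈ ⋃ n, 𝓕 n := by rw [← hPU]; exact ⟨𝓔, h𝓔, hW⟩
      obtain ⟨n, hn⟩ := mem_iUnion.1 h2
      exact hanti' (Nat.zero_le n) ((h𝓕 n).2 hn)
    obtain ⟨E, hE, hEf, hE'⟩ := exists_finite_of_finUnions (hP 𝓔 h𝓔).1 h1
    exact (h𝒰 0).2 ⟨E, hEf, hE, by rw [hE', (hP 𝓔 h𝓔).2]⟩
  · -- groups
    have hK : ∀ n, ∃ K, ∀ k, K ≤ k → G k ⊆ finUnions (𝒰 n) := by
      intro n
      have hfin : (⋃ W ∈ (⋃ m ∈ {m | m < n}, 𝓕 m), {k | W ∈ G k}).Finite := by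
        refine Set.Finite.biUnion ((Set.finite_lt_nat n).biUnion fun m _ => (h𝓕 m).1) ?_
        intro W _
        refine Set.Subsingleton.finite ?_
        intro k hk l hl
        by_contra hkl
        exact Set.disjoint_left.1 (hGd k l hkl) hk hl
      obtain ⟨M, hM⟩ := hfin.bddAbove
      refine ⟨M + 1, fun k hk W hW => ?_⟩
      have h1 : W ∈ ⋃ n, 𝓕 n := by rw [← hGU]; exact mem_iUnion.2 ⟨k, hW⟩
      obtain ⟨m, hm⟩ := mem_iUnion.1 h1
      by_cases hmn : m < n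
      · have h2 : k ≤ M := hM (mem_biUnion (mem_biUnion (show m ∈ {m | m < n} from hmn) hm) hW)
        omega
      · exact hanti' (not_lt.1 hmn) ((h𝓕 m).2 hm)
    choose K hK using hK
    let κ : ℕ → ℕ := fun n => Nat.rec (K 0) (fun n κn => max (K (n + 1)) (κn + 1)) n
    have hκs : ∀ n, κ (n + 1) = max (K (n + 1)) (κ n + 1) := fun n => rfl
    have hκ : StrictMono κ := strictMono_nat_of_lt_succ fun n => by
      rw [hκs]; exact lt_of_lt_of_le (Nat.lt_succ_self _) (le_max_right _ _)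
    have hκK : ∀ n, K n ≤ κ n := by
      intro n
      cases n with
      | zero => exact le_rfl
      | succ n => rw [hκs]; exact le_max_left _ _
    have hV : ∀ n, ∃ E ⊆ 𝒰 n, E.Finite ∧ ⋃₀ E = ⋃₀ (⋃ k ∈ {k | κ n ≤ k ∧ k < κ (n + 1)}, G k) := by
      intro n
      refine exists_finite_of_finUnions ?_ ?_
      · exact ((Set.finite_lt_nat (κ (n + 1))).subset fun k hk => hk.2).biUnion fun k _ => hGf k
      · exact iUnion₂_subset fun k hk => hK n k ((hκK n).trans hk.1)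
    choose F hF1 hF2 hF3 using hV
    have hmem : ∀ x n, x ∈ ⋃₀ F n ↔ n ∈ blk κ {k | x ∈ ⋃₀ G k} := by
      intro x n
      rw [hF3]
      simp only [mem_sUnion, mem_iUnion, blk, mem_ofPred_eq]
      constructor
      · rintro ⟨t, ⟨k, hk, ht⟩, hx⟩
        exact ⟨k, hk.1, hk.2, t, ht, hx⟩
      · rintro ⟨k, h1, h2, t, ht, hx⟩
        exact ⟨t, ⟨k, ⟨h1, h2⟩, ht⟩, hx⟩
    have hset : ∀ x, {n | x ∈ ⋃₀ F n} = blk κ {k | x ∈ ⋃₀ G k} := fun x => by
      ext n; exact hmem x n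
    refine ⟨F, fun n => ⟨hF2 n, hF1 n⟩, fun n => ?_, fun n => ?_, fun x => ?_, fun x y => ?_⟩
    · exact isOpen_sUnion fun U hU => (h𝒰 n).1.1 U (hF1 n hU)
    · intro hn
      exact (h𝒰 n).2 ⟨F n, hF2 n, hF1 n, hn⟩
    · change {n | x ∈ ⋃₀ F n}.Infinite
      rw [hset]
      exact blk_infinite hκ (hGτ.2.2.1 x)
    · have key : ∀ x y, {n | x ∈ ⋃₀ G n ∧ y ∉ ⋃₀ G n}.Finite →
          {n | x ∈ ⋃₀ F n ∧ y ∉ ⋃₀ F n}.Finite := by
        intro x y hxy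
        have h1 := blk_diff_finite hκ (A := {k | x ∈ ⋃₀ G k}) (A' := {k | y ∈ ⋃₀ G k}) hxy
        rw [← hset, ← hset] at h1
        exact h1
      exact (hGτ.2.2.2 x y).imp (key x y) (key y x)

end forward

/-! ## From decreasing sequences to groupable selections -/

section backward

variable {X : Type u} [TopologicalSpace X]

omit [TopologicalSpace X] in
lemma omega_diff_finite {𝒲 E : Set (Set X)} (h : ∀ F : Set X, F.Finite → ∃ U ∈ 𝒲, F ⊆ U)
    (huniv : Set.univ ∉ 𝒲) (hE : E.Finite) : ∀ F : Set X, F.Finite → ∃ U ∈ 𝒲 \ E, F ⊆ U := by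
  intro F hF
  have hpt : ∀ W : Set X, ∃ x : Set X, x.Finite ∧ (W ∈ 𝒲 → ¬ x ⊆ W) := by
    intro W
    by_cases hW : W = Set.univ
    · exact ⟨∅, finite_empty, fun hW' => absurd (hW ▸ hW') huniv⟩
    · obtain ⟨x, hx⟩ := (ne_univ_iff_exists_notMem W).1 hW
      exact ⟨{x}, finite_singleton x, fun _ h => hx (h rfl)⟩
  choose c hc hc' using hpt
  obtain ⟨U, hU, hFU⟩ := h (F ∪ ⋃ W ∈ E, c W) (hF.union (hE.biUnion fun W _ => hc W))
  refine ⟨U, ⟨hU, fun hUE => hc' U hU ?_⟩, subset_union_left.trans hFU⟩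
  exact (subset_biUnion_of_mem (u := fun W => c W) hUE).trans (subset_union_right.trans hFU)

lemma exists_countable_omega [SecondCountableTopology X] {𝒰 : Set (Set X)}
    (h : IsOmegaCover 𝒰) : ∃ 𝒲 ⊆ 𝒰, 𝒲.Countable ∧ ∀ F : Set X, F.Finite → ∃ U ∈ 𝒲, F ⊆ U := by
  classical
  have hB := TopologicalSpace.isBasis_countableBasis X
  have hBc := TopologicalSpace.countable_countableBasis X
  obtain ⟨U₀, hU₀, -⟩ := h.2 ∅ finite_empty
  have hch : ∀ E : Set (Set X), ∃ U ∈ 𝒰, (∃ V ∈ 𝒰, ⋃₀ E ⊆ V) → ⋃₀ E ⊆ U := by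
    intro E
    by_cases hE : ∃ V ∈ 𝒰, ⋃₀ E ⊆ V
    · obtain ⟨V, hV, hEV⟩ := hE
      exact ⟨V, hV, fun _ => hEV⟩
    · exact ⟨U₀, hU₀, fun h => absurd h hE⟩
  choose g hg hg' using hch
  refine ⟨g '' {E | E.Finite ∧ E ⊆ TopologicalSpace.countableBasis X}, ?_, ?_, ?_⟩
  · rintro _ ⟨E, -, rfl⟩
    exact hg E
  · exact (Set.countable_ofPred_finite_subset hBc).image g
  · intro F hF
    obtain ⟨U, hU, hFU⟩ := h.2 F hF
    have hb : ∀ x : X, ∃ b ∈ TopologicalSpace.countableBasis X, x ∈ F → x ∈ b ∧ b ⊆ U := by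
      intro x
      by_cases hx : x ∈ F
      · obtain ⟨b, hb, hxb, hbU⟩ := hB.exists_subset_of_mem_open (hFU hx) (h.1.1 U hU)
        exact ⟨b, hb, fun _ => ⟨hxb, hbU⟩⟩
      · obtain ⟨b, hb, -⟩ := hB.exists_subset_of_mem_open (mem_univ x) isOpen_univ
        exact ⟨b, hb, fun h => absurd h hx⟩
    choose b hb hb' using hb
    refine ⟨g (b '' F), ⟨b '' F, ⟨hF.image b, ?_⟩, rfl⟩, ?_⟩
    · rintro _ ⟨x, -, rfl⟩
      exact hb x
    · have h1 : ⋃₀ (b '' F) ⊆ g (b '' F) := by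
        refine hg' _ ⟨U, hU, ?_⟩
        rintro y ⟨_, ⟨x, hx, rfl⟩, hy⟩
        exact (hb' x hx).2 hy
      exact fun x hx => h1 ⟨b x, ⟨x, hx, rfl⟩, (hb' x hx).1⟩

omit [TopologicalSpace X] in
/-- Assigning the members of the groups `G k` to the families `𝒱 m`. -/
lemma assign {𝒱 G : ℕ → Set (Set X)} (hG : ∀ k, (G k).Finite)
    (h : ∀ k, ∀ W ∈ G k, ∃ m, k ≤ m ∧ W ∈ 𝒱 m) :
    ∃ 𝓕 : ℕ → Set (Set X), (∀ n, (𝓕 n).Finite ∧ 𝓕 n ⊆ 𝒱 n) ∧ (⋃ n, 𝓕 n) = ⋃ k, G k := by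
  refine ⟨fun m => {W | ∃ k, k ≤ m ∧ W ∈ G k ∧ W ∈ 𝒱 m}, fun n => ⟨?_, ?_⟩, ?_⟩
  · refine ((Set.finite_le_nat n).biUnion fun k _ => hG k).subset ?_
    rintro W ⟨k, hk, hW, -⟩
    exact mem_biUnion (show k ∈ {i | i ≤ n} from hk) hW
  · rintro W ⟨k, -, -, hW⟩
    exact hW
  · ext W
    simp only [mem_iUnion, mem_ofPred_eq]
    constructor
    · rintro ⟨m, k, -, hW, -⟩
      exact ⟨k, hW⟩
    · rintro ⟨k, hW⟩
      obtain ⟨m, hkm, hm⟩ := h k W hW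
      exact ⟨m, k, hkm, hW, hm⟩

theorem sfin_of_ufinTauDecreasing [SecondCountableTopology X] (h : UfinTauDecreasing X) :
    SfinOmegaTauGp X := by
  classical
  intro 𝒰 h𝒰
  have hch := fun n => exists_countable_omega (h𝒰 n)
  choose 𝒱 h𝒱𝒰 h𝒱c h𝒱ω using hch
  have hVuniv : ∀ n, Set.univ ∉ 𝒱 n := fun n h' => (h𝒰 n).1.2.2 (h𝒱𝒰 n h')
  have hVopen : ∀ n, ∀ W ∈ 𝒱 n, IsOpen W := fun n W hW => (h𝒰 n).1.1 W (h𝒱𝒰 n hW)
  have hne : Nonempty X := by
    obtain ⟨U, hU, -⟩ := h𝒱ω 0 ∅ finite_empty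
    have hU' : U ≠ Set.univ := fun h' => hVuniv 0 (h' ▸ hU)
    obtain ⟨x, -⟩ := (ne_univ_iff_exists_notMem U).1 hU'
    exact ⟨x⟩
  have hWc : (⋃ n, 𝒱 n).Countable := countable_iUnion h𝒱c
  obtain ⟨idx, hidx⟩ := Set.countable_iff_exists_injOn.1 hWc
  let D : ℕ → Set (Set X) := fun n => {W | n ≤ idx W ∧ ∃ m, n ≤ m ∧ W ∈ 𝒱 m}
  have hDanti : ∀ {m n : ℕ}, m ≤ n → D n ⊆ D m := by
    rintro m n hmn W ⟨h1, k, hk, hW⟩
    exact ⟨hmn.trans h1, k, hmn.trans hk, hW⟩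
  have hDsub : ∀ n, ∀ W ∈ D n, ∃ m, n ≤ m ∧ W ∈ 𝒱 m := fun n W hW => hW.2
  have hDopen : ∀ n, ∀ W ∈ D n, IsOpen W := by
    rintro n W ⟨-, m, -, hW⟩
    exact hVopen m W hW
  have hDuniv : ∀ n, Set.univ ∉ D n := by
    rintro n ⟨-, m, -, hW⟩
    exact hVuniv m hW
  have hDω : ∀ n, ∀ F : Set X, F.Finite → ∃ U ∈ D n, F ⊆ U := by
    intro n F hF
    have hfin : {W | W ∈ 𝒱 n ∧ idx W < n}.Finite := by
      refine Set.Finite.of_finite_image (f := idx) ((Set.finite_lt_nat n).subset ?_) ?_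
      · rintro _ ⟨W, hW, rfl⟩
        exact hW.2
      · exact hidx.mono fun W hW => mem_iUnion.2 ⟨n, hW.1⟩
    obtain ⟨U, hU, hFU⟩ := omega_diff_finite (h𝒱ω n) (hVuniv n) hfin F hF
    refine ⟨U, ⟨?_, n, le_rfl, hU.1⟩, hFU⟩
    by_contra hlt
    exact hU.2 ⟨hU.1, not_le.1 hlt⟩
  have hDcov : ∀ n, IsOpenCover (D n) := by
    refine fun n => ⟨hDopen n, eq_univ_of_forall fun x => ?_, hDuniv n⟩
    obtain ⟨U, hU, hxU⟩ := hDω n {x} (finite_singleton x)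
    exact ⟨U, hU, hxU rfl⟩
  -- a convenient form of the conclusion
  have hconcl : ∀ G : ℕ → Set (Set X), (∀ k, (G k).Finite) → (∀ k, G k ⊆ D k) →
      (⋃₀ ⋃ k, G k) = Set.univ →
      (IsMultifinite (⋃ k, G k) ∨ ∃ H : ℕ → Set (Set X), (∀ n, (H n).Finite) ∧
        (∀ n, (H n).Nonempty) ∧ (∀ m n, m ≠ n → Disjoint (H m) (H n)) ∧
        (⋃ n, H n) = (⋃ k, G k) ∧ IsTauSeq fun n => ⋃₀ H n) →
      ∃ 𝓕 : ℕ → Set (Set X), (∀ n, (𝓕 n).Finite ∧ 𝓕 n ⊆ 𝒰 n) ∧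
        IsTauGroupable (⋃ n, 𝓕 n) := by
    intro G hGf hGD hGu hG
    obtain ⟨𝓕, h𝓕, h𝓕u⟩ := assign (𝒱 := 𝒱) hGf fun k W hW => hDsub k W (hGD k hW)
    refine ⟨𝓕, fun n => ⟨(h𝓕 n).1, (h𝓕 n).2.trans (h𝒱𝒰 n)⟩, ?_⟩
    rw [h𝓕u]
    refine ⟨⟨?_, hGu, ?_⟩, hG⟩
    · intro W hW
      obtain ⟨k, hk⟩ := mem_iUnion.1 hW
      exact hDopen k W (hGD k hk)
    · intro hW
      obtain ⟨k, hk⟩ := mem_iUnion.1 hW
      exact hDuniv k (hGD k hk)
  have hbd : ∀ E : Set (Set X), E.Finite → ∃ N, ∀ W ∈ E, idx W ≤ N := by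
    intro E hE
    obtain ⟨N, hN⟩ := (hE.image idx).bddAbove
    exact ⟨N, fun W hW => hN ⟨W, hW, rfl⟩⟩
  by_cases hA : ∀ n, HasFiniteSubcover (D n)
  · -- all `D n` have finite subcovers
    choose c hcf hcD hcu using hA
    choose ν hν using fun n => hbd (c n) (hcf n)
    let κ : ℕ → ℕ := fun n => Nat.rec 0 (fun _ κn => max κn (ν κn) + 1) n
    have hκs : ∀ n, κ (n + 1) = max (κ n) (ν (κ n)) + 1 := fun n => rfl
    have hκ : StrictMono κ := strictMono_nat_of_lt_succ fun n => by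
      rw [hκs]; exact Nat.lt_succ_of_le (le_max_left _ _)
    have hdisj : ∀ k l, k < l → Disjoint (c (κ k)) (c (κ l)) := by
      intro k l hkl
      refine Set.disjoint_left.2 fun W hW hW' => ?_
      have h1 := hν _ W hW
      have h2 : κ l ≤ idx W := (hcD _ hW').1
      have h3 : κ (k + 1) ≤ κ l := hκ.monotone hkl
      rw [hκs] at h3
      have h4 := le_max_right (κ k) (ν (κ k))
      omega
    have hdisj' : ∀ k l, k ≠ l → Disjoint (c (κ k)) (c (κ l)) := by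
      intro k l hkl
      rcases lt_or_gt_of_ne hkl with h' | h'
      · exact hdisj k l h'
      · exact (hdisj l k h').symm
    have hcne : ∀ n, (c n).Nonempty := by
      intro n
      by_contra hemp
      rw [not_nonempty_iff_eq_empty] at hemp
      have h1 := hcu n
      rw [hemp, sUnion_empty] at h1
      obtain ⟨x⟩ := hne
      have h2 : x ∈ (∅ : Set X) := by rw [h1]; trivial
      exact h2
    refine hconcl (fun k => c (κ k)) (fun k => hcf _)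
      (fun k => (hcD _).trans (hDanti (hκ.id_le k))) ?_ (Or.inl ?_)
    · refine eq_univ_of_forall fun x => ?_
      have h1 : x ∈ ⋃₀ c (κ 0) := by rw [hcu]; trivial
      obtain ⟨W, hW, hx⟩ := h1
      exact ⟨W, mem_iUnion.2 ⟨0, hW⟩, hx⟩
    · refine ⟨range fun k => c (κ k), ?_, ?_, ?_, ?_⟩
      · refine Set.infinite_range_of_injective fun k l hkl => ?_
        by_contra hne'
        have h1 := hdisj' k l hne'
        have hkl' : c (κ k) = c (κ l) := hkl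
        rw [hkl', disjoint_self] at h1
        exact (hcne (κ l)).ne_empty h1
      · rintro _ ⟨k, rfl⟩ _ ⟨l, rfl⟩ hkl
        exact hdisj' k l fun h' => hkl (by rw [h'])
      · rw [sUnion_range]
      · rintro _ ⟨k, rfl⟩
        exact ⟨hcf _, hcu _⟩
  · -- some `D n₀` has no finite subcover
    push Not at hA
    obtain ⟨n₀, hn₀⟩ := hA
    have hno : ∀ n, ¬ HasFiniteSubcover (D (n₀ + n)) := by
      rintro n ⟨E, hE, hED, hEu⟩
      exact hn₀ ⟨E, hE, hED.trans (hDanti (Nat.le_add_right _ _)), hEu⟩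
    obtain ⟨V, hV, hVτ⟩ := h (fun n => D (n₀ + n)) (fun n => ⟨hDcov _, hno n⟩)
      fun n => hDanti (by omega)
    choose ν hν using fun n => hbd (V n) (hV n).1
    let N : ℕ → ℕ := fun m => (Finset.range m).sup ν
    have hN : ∀ m n, n < m → ν n ≤ N m := fun m n hn =>
      Finset.le_sup (f := ν) (Finset.mem_range.2 hn)
    let κ : ℕ → ℕ := fun n => Nat.rec 0 (fun _ κn => max κn (N κn) + 1) n
    have hκs : ∀ n, κ (n + 1) = max (κ n) (N (κ n)) + 1 := fun n => rfl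
    have hκ : StrictMono κ := strictMono_nat_of_lt_succ fun n => by
      rw [hκs]; exact Nat.lt_succ_of_le (le_max_left _ _)
    let G : ℕ → Set (Set X) := fun i => ⋃ n ∈ {n | κ i ≤ n ∧ n < κ (i + 1)}, V n
    have hGf : ∀ i, (G i).Finite := fun i =>
      ((Set.finite_lt_nat (κ (i + 1))).subset fun k hk => hk.2).biUnion fun k _ => (hV k).1
    have hGD : ∀ i, G i ⊆ D (κ i) := by
      intro i W hW
      obtain ⟨n, hn, hW'⟩ := mem_iUnion₂.1 hW
      exact hDanti (hn.1.trans (Nat.le_add_left _ _)) ((hV n).2 hW')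
    have hGD₀ : ∀ i, G i ⊆ D n₀ := by
      intro i W hW
      obtain ⟨n, hn, hW'⟩ := mem_iUnion₂.1 hW
      exact hDanti (Nat.le_add_right _ _) ((hV n).2 hW')
    have hGidx : ∀ i, ∀ W ∈ G i, idx W < κ (i + 2) := by
      intro i W hW
      obtain ⟨n, hn, hW'⟩ := mem_iUnion₂.1 hW
      have h1 := hν n W hW'
      have h2 := hN _ n hn.2
      rw [hκs (i + 1)]
      have h3 := le_max_right (κ (i + 1)) (N (κ (i + 1)))
      omega
    have hGdisj : ∀ i j, i + 2 ≤ j → Disjoint (G i) (G j) := by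
      intro i j hij
      refine Set.disjoint_left.2 fun W hW hW' => ?_
      have h1 := hGidx i W hW
      have h2 : κ j ≤ idx W := (hGD j hW').1
      have h3 : κ (i + 2) ≤ κ j := hκ.monotone hij
      omega
    have hGmem : ∀ x i, x ∈ ⋃₀ G i ↔ i ∈ blk κ {n | x ∈ ⋃₀ V n} := by
      intro x i
      simp only [G, mem_sUnion, mem_iUnion, blk, mem_ofPred_eq]
      constructor
      · rintro ⟨t, ⟨k, hk, ht⟩, hx⟩
        exact ⟨k, hk.1, hk.2, t, ht, hx⟩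
      · rintro ⟨k, h1, h2, t, ht, hx⟩
        exact ⟨t, ⟨k, ⟨h1, h2⟩, ht⟩, hx⟩
    have hGset : ∀ x, {i | x ∈ ⋃₀ G i} = blk κ {n | x ∈ ⋃₀ V n} := fun x => by
      ext i; exact hGmem x i
    have hlin : ∀ x y, ({i | x ∈ ⋃₀ G i} \ {i | y ∈ ⋃₀ G i}).Finite ∨
        ({i | y ∈ ⋃₀ G i} \ {i | x ∈ ⋃₀ G i}).Finite := by
      intro x y
      rw [hGset, hGset]
      exact (hVτ.2.2.2 x y).imp (fun h' => blk_diff_finite hκ h') fun h' => blk_diff_finite hκ h'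
    obtain ⟨e, he⟩ := parity (fun x => {i | x ∈ ⋃₀ G i})
      (fun x => by
        rw [hGset]; exact blk_infinite hκ (hVτ.2.2.1 x)) hlin
    let J : Set ℕ := {j | (G (2 * j + e)).Nonempty}
    have hxJ : ∀ x, {j | 2 * j + e ∈ {i | x ∈ ⋃₀ G i}} ⊆ J := by
      rintro x j ⟨W, hW, -⟩
      exact ⟨W, hW⟩
    have hJ : J.Infinite := by
      obtain ⟨x⟩ := hne
      exact (he x).mono (hxJ x)
    let τ : ℕ → ℕ := Nat.nth fun j => j ∈ J
    have hτ : StrictMono τ := Nat.nth_strictMono hJ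
    have hτJ : ∀ k, τ k ∈ J := fun k => Nat.nth_mem_of_infinite hJ k
    have hτr : range τ = J := Nat.range_nth_of_infinite hJ
    refine hconcl (fun k => G (2 * τ k + e)) (fun k => hGf _)
      (fun k => (hGD _).trans (hDanti ?_)) ?_ (Or.inr ⟨fun k => G (2 * τ k + e), fun k => hGf _,
        fun k => hτJ k, ?_, rfl, ?_, ?_, ?_, ?_⟩)
    · have h1 := hκ.id_le (2 * τ k + e)
      have h2 := hτ.id_le k
      simp only [id_eq] at h1 h2
      omega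
    · refine eq_univ_of_forall fun x => ?_
      obtain ⟨j, hj⟩ := (he x).nonempty
      have hjJ : j ∈ range τ := by rw [hτr]; exact hxJ x hj
      obtain ⟨k, rfl⟩ := hjJ
      obtain ⟨W, hW, hx⟩ := hj
      exact ⟨W, mem_iUnion.2 ⟨k, hW⟩, hx⟩
    · intro k l hkl
      have h1 : τ k ≠ τ l := fun h' => hkl (hτ.injective h')
      rcases lt_or_gt_of_ne h1 with h' | h'
      · exact hGdisj _ _ (by omega)
      · exact (hGdisj _ _ (by omega)).symm
    · intro k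
      refine isOpen_sUnion fun W hW => hDopen _ W (hGD _ hW)
    · intro k h'
      exact hn₀ ⟨_, hGf _, hGD₀ _, h'⟩
    · intro x
      have h1 : (τ ⁻¹' {j | 2 * j + e ∈ {i | x ∈ ⋃₀ G i}}).Infinite := by
        refine (he x).preimage ?_
        rw [hτr]
        exact hxJ x
      exact h1
    · intro x y
      have hpre : ∀ A : Set ℕ, A.Finite → {k | 2 * τ k + e ∈ A}.Finite := by
        intro A hA
        refine hA.preimage (f := fun k => 2 * τ k + e) fun k _ l _ hkl => hτ.injective ?_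
        have hkl' : 2 * τ k + e = 2 * τ l + e := hkl
        omega
      exact (hlin x y).imp (hpre _) (hpre _)

end backward

/-- For second countable spaces, `S_fin(Ω, O^{τ-gp})` is `U_fin(O, T)` for decreasing sequences of
covers. -/
theorem sfin_iff_ufinTauDecreasing {X : Type u} [TopologicalSpace X]
    [SecondCountableTopology X] : SfinOmegaTauGp X ↔ UfinTauDecreasing X :=
  ⟨ufinTauDecreasing_of_sfin, sfin_of_ufinTauDecreasing⟩

end Pool.Agent.TauGp
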